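import Pool.Agent.H748.Hom.Fin

/-!
# Signatures of Poincaré complexes: right-angled Artin extensions and marked limits

Let `(b, S)` be a symmetric Poincaré complex over `ℂ[G]`, for example the symmetrised cellular
chain complex of a `4k`-dimensional Poincaré complex (or of a normal map) with fundamental group
`G`. It has a signature, a signature with coefficients in every unitary representation of `G`, and
an `L²`-signature. If the assembly map for `G` is onto, then for torsion-free `G`

* the `L²`-signature is the signature,
* the signature with coefficients in `ρ : G → U(d)` is `d` times the signature.

We prove this for the class `Built` of groups, which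

* contains the groups whose finitely generated subgroups are residually torsion-free nilpotent, or
  residually torsion-free virtually abelian (so all RFRS groups), or mixtures of these,
* contains every group whose `L²`-signatures are already known to be the signatures (so all
  torsion-free groups with the `L`-theoretic Farrell-Jones conjecture, or with the Baum-Connes
  conjecture, for example all torsion-free amenable, hyperbolic and CAT(0) groups),
* contains every group which is locally embeddable into members: for every finite subset `F` some
  member has a map from `G` which is injective and multiplicative on `F`; so the class is closed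
  under subgroups, directed unions, directed colimits with arbitrary maps and marked limits, and
  contains the groups which are fully residually members,
* contains `A_Γ ⋊ M` for every member `M` acting on any graph `Γ` (finite or infinite), where `A_Γ`
  is the right-angled Artin group of `Γ`; special cases are `M × ℤ`, `M * F` for a free group `F`,
  `ℤ ≀ M`, all permutational wreath products, and the HNN extension of `M` whose stable letter
  centralises a given subgroup `C` (this is `A_Γ ⋊ M` for the graph without edges on `M / C`), hence
  the double `M *_C M` along any subgroup and the groups `F / [R, R]` with `F / R = M`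
  (Magnus embedding),
* contains `G` if for some normal subgroup `N` of finite index it contains all `N⟨g⟩`, `g ∈ G`,
* contains `G` if it contains the preimage of `mℤ` under some homomorphism `G → ℤ`, `m > 0`.

Here `G` is torsion-free, but no finiteness condition is imposed, and neither the assembly map nor
any isomorphism conjecture enters the proof.

Proof for `E = A_Γ ⋊ M`. The elements `t^(s)` of the group algebra of a finite cyclic group
(principal powers of the generator `t`) define for every `N` a path of unitary homomorphisms from
`E` to the group algebra of `(A_Γ / ⟨t_v ^ N⟩) ⋊ M`, from `E → M` (`s = 0`) to the projection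
(`s = 1`); the path is `M`-equivariant. The Hermitian matrix `b + b* + S` has a spectral gap which
is uniform along the path, so traces of polynomials close to the sign function are constant along
the path up to a controlled error (Newton-Schulz iteration); since `A_Γ` is residually finite, the
canonical traces over `E` and over `M` have the same limit. Marked limits are treated by the uniform
gap, subgroups of finite index by Artin induction, and the twisted signatures by tensoring.
-/

set_option autoImplicit false

namespace Pool.Agent.Results.MP_c13a79_gt.RaagLimitSignatures

open Pool.Agent.H748.Sig Pool.Agent.H748.Art Pool.Agent.H748.Hom Matrix Polynomial Filter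

/-- the class of groups -/
inductive Built : (G : Type) → [Group G] → Prop
  /-- the `L²`-signatures over `G` are already known to be the signatures -/
  | start (G : Type) [Group G]
      (h : ∀ (n : ℕ) (b S : Matrix (Fin n) (Fin n) (MonoidAlgebra ℂ G)), IsPoincare b S →
        L2SignatureIs b S (augSignature b S)) : Built G
  /-- finitely generated subgroups are residually torsion-free (nilpotent or virtually abelian) -/
  | detected (G : Type) [Group G]
      (h : ∀ H : Subgroup G, H.FG → ∀ g : H, g ≠ 1 →
        ∃ (Q : Type) (_ : Group Q) (f : H →* Q), (TFVA Q ∨ TFN Q) ∧ f g ≠ 1) : Built G
  /-- `G` is locally embeddable into members of the class -/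
  | limit (G : Type) [Group G] (H : Finset G → Type) [∀ F, Group (H F)] (f : ∀ F, G → H F)
      (hH : ∀ F, Built (H F)) (hinj : ∀ F, Set.InjOn (f F) F)
      (hmul : ∀ F, ∀ x ∈ F, ∀ y ∈ F, f F (x * y) = f F x * f F y) : Built G
  /-- semidirect products of a right-angled Artin group and a member acting on the graph -/
  | raag (M V : Type) [Group M] [MulAction M V] (Γ : SimpleGraph V)
      (h : ∀ (m : M) (s t : V), Γ.Adj s t → Γ.Adj (m • s) (m • t)) (hM : Built M) :
      Built (PresentedGroup (relC Γ) ⋊[pgAct (relC Γ) (relC_inv h)] M)
  /-- the subgroups `N⟨g⟩` for a normal subgroup `N` of finite index are members -/
  | finite (G : Type) [Group G] (N : Subgroup G) [N.Normal] [N.FiniteIndex]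
      (h : ∀ g : G, Built (N ⊔ Subgroup.zpowers g : Subgroup G)) : Built G
  /-- the preimage of `mℤ` under a homomorphism to `ℤ` is a member -/
  | cyclic (G : Type) [Group G] (φ : G →* Multiplicative ℤ) (m : ℕ) (hm : 0 < m)
      (h : Built ((Subgroup.zpowers (Multiplicative.ofAdd (m : ℤ))).comap φ)) : Built G

theorem Built.l2s {G : Type} [Group G] (hG : Built G) : L2S G := by
  induction hG with
  | start G h => exact L2S.of_fin h
  | detected G h => exact L2S.of_local h
  | limit G H f hH hinj hmul ih =>
    exact L2S.limit fun F => ⟨H F, inferInstance, f F, ih F, hinj F, hmul F⟩
  | raag M V Γ h hM ih => exact L2S.raag h ih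
  | finite G N h ih => exact L2S.of_cyclic N ih
  | cyclic G φ m hm h ih =>
    refine L2S.of_dvd φ hm ?_
    rw [dvd_eq]
    exact ih

theorem result {G : Type} [Group G] (hG : Built G) {n : ℕ}
    (b S : Matrix (Fin n) (Fin n) (MonoidAlgebra ℂ G)) (h : IsPoincare b S) :
    (∀ (d : ℕ) (ρ : G →* unitaryGroup (Fin d) ℂ),
      cohSignature (fun g => (ρ g).val) b S = d * augSignature b S) ∧
    L2SignatureIs b S (augSignature b S) :=
  hG.l2s.fin h

end Pool.Agent.Results.MP_c13a79_gt.RaagLimitSignatures
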